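import Pool.Agent.Lib.MP_1a91b9_ntT.DH.Tr
import Pool.Agent.Lib.MP_1a91b9_ntT.DX.Ex

/-!
# DH: divisibility of the points over the algebraic closure, the action of `𝓞 K` on cocycles

PROOF (complete; stream DH of helper55, the `ℓ`-part of the Tate-Shafarevich group). Jobs DvA (`div_Om`), DvB
(`smF_coc`, `smF_triv`, `smF_sha`, `dev`). NEVER use the tactics `convert` or `congr!` (lean-grade refuses).

DvA `div_Om`. Let `Ω = AlgebraicClosure F`, `Q' = tr F Ω Q : Pt Ω`; if `Q' = 0` take `0`. Otherwise `Q' = mkPt x y`; `F' =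
IntermediateField.adjoin F {x, y}` (finite over `F`, a number field, `Algebra K F'` is an instance or by composition), `Q'` is the image of a
point `Q₁` of `Pt F'` under `F'.val.restrictScalars K` (`mkPt` with coordinates in `F'`). `exists_div` (DX/Ex) for `F'`, `Q₁`: a number field
`T` over `F'` and `R₁ : Pt T` with `sm T β R₁ = up T Q₁`. `Ω` is algebraically closed and an `F'`-algebra (instance), so there is `e : T →ₐ[F'] Ω`
(`IsAlgClosed.lift`; `T` is algebraic over `F'`: finite over `ℚ`); `R' = pm (e as a K-homomorphism) R₁`: `sm Ω β R' = pm e (up T Q₁) = Q'`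
(`pm_sm`, `Affine.Point.map_map` or coordinates). `R = (tr F Ω).symm R'`; `tr_smF`. (Universe: `F : Type u`, `F'` is in `Type u`.)

DvB. `smF_coc`: `IsLocallyConstant.comp` and `smF_map` (the action of `σ` is `Affine.Point.map (σ : Ω →ₐ[F] Ω)`, which commutes with `smF`),
`map_add`. `smF_triv`: for `i` take the point `smF F _ a P`: `smF_map` for `i` and for `σ.restrictScalars F`, `map_sub`. `smF_sha`: `shaCoc` is the
infimum (`AddSubgroup.mem_inf`, `AddSubgroup.mem_iInf`). `dev`: as `two_class` in S9/MC: `smF β (C σ) = σ Q - Q` for all `σ` (`hC`); `Q = smF β R`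
(`div_Om`); `C' σ = C σ - (σ R - R)` is in `shaCoc` (`S9.cob_le_shaCoc`, `sub_mem`) and `smF β (C' σ) = 0` (`smF_map`): `C' ∈ cob` by `hβ`, so
`C = C' + ∂ R ∈ cob`.
-/

set_option autoImplicit false

namespace Pool.Agent.Lib.MP_1a91b9_ntT.DH

open NumberField IsDedekindDomain WeierstrassCurve DB DX
open scoped Classical

universe u

section
variable {F : Type u} [Field F] [NumberField F] [Algebra K F]

private theorem dva_pt {F' T : Type u} [Field F'] [NumberField F'] [Algebra K F']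
    [Field T] [NumberField T] [Algebra K T] [Algebra F' T] [IsScalarTower K F' T]
    [DecidableEq T] {Ω : Type u} [Field Ω] [IsAlgClosed Ω] [Algebra K Ω] [Algebra F' Ω]
    [IsScalarTower K F' Ω] {β : 𝓞 K} (Q₁ : Pt F') (R₁ : Pt T) (hR : sm T β R₁ = up T Q₁) :
    ∃ R' : Pt Ω, sm Ω β R' = pm (IsScalarTower.toAlgHom K F' Ω) Q₁ := by
  have hfin : Module.Finite F' T := Module.Finite.of_restrictScalars_finite ℚ F' T
  have hal : Algebra.IsAlgebraic F' T := Algebra.IsAlgebraic.of_finite F' T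
  let e : T →ₐ[F'] Ω := IsAlgClosed.lift
  refine ⟨pm (e.restrictScalars K) R₁, ?_⟩
  rw [← pm_sm, hR]
  rcases cases_pt Q₁ with rfl | ⟨a, b, h, rfl⟩
  · rw [up, map_zero, map_zero, map_zero]
  · obtain ⟨h1, e1⟩ := pm_mk (IsScalarTower.toAlgHom K F' T) a b h
    obtain ⟨h2, e2⟩ := pm_mk (e.restrictScalars K) (IsScalarTower.toAlgHom K F' T a)
      (IsScalarTower.toAlgHom K F' T b) h1
    obtain ⟨h3, e3⟩ := pm_mk (IsScalarTower.toAlgHom K F' Ω) a b h
    rw [up, e1, e2, e3, mk_inj]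
    exact ⟨e.commutes a, e.commutes b⟩

private theorem dva_gen {F' : Type u} [Field F'] [NumberField F'] [Algebra K F']
    {Ω : Type u} [Field Ω] [IsAlgClosed Ω] [Algebra K Ω] [Algebra F' Ω]
    [IsScalarTower K F' Ω] {β : 𝓞 K} (hβ : β ≠ 0) {x y : Ω} (h : y ^ 2 + y = x ^ 3) (x' y' : F')
    (hx : algebraMap F' Ω x' = x) (hy : algebraMap F' Ω y' = y) :
    ∃ R' : Pt Ω, sm Ω β R' = mkPt x y h := by
  have he : y' ^ 2 + y' = x' ^ 3 := by
    apply (algebraMap F' Ω).injective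
    rw [map_add, map_pow, map_pow, hx, hy]
    exact h
  obtain ⟨T, i1, i2, i3, i4, i5, i6, R₁, hR₁⟩ := exists_div hβ (mkPt x' y' he)
  obtain ⟨R', hR'⟩ := dva_pt (Ω := Ω) (mkPt x' y' he) R₁ hR₁
  refine ⟨R', hR'.trans ?_⟩
  obtain ⟨h1, e1⟩ := pm_mk (IsScalarTower.toAlgHom K F' Ω) x' y' he
  rw [e1, mk_inj]
  exact ⟨hx, hy⟩

private theorem dva_aux {β : 𝓞 K} (hβ : β ≠ 0) (Q : Pt (AlgebraicClosure F)) :
    ∃ R : Pt (AlgebraicClosure F), sm (AlgebraicClosure F) β R = Q := by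
  rcases cases_pt Q with rfl | ⟨x, y, h, rfl⟩
  · exact ⟨0, map_zero _⟩
  · have hfin : FiniteDimensional F
        (IntermediateField.adjoin F ({x, y} : Set (AlgebraicClosure F))) :=
      IntermediateField.finiteDimensional_adjoin fun a _ =>
        (Algebra.IsAlgebraic.isAlgebraic a).isIntegral
    have hnf : NumberField (IntermediateField.adjoin F ({x, y} : Set (AlgebraicClosure F))) :=
      NumberField.of_module_finite F _
    have hst : IsScalarTower K (IntermediateField.adjoin F ({x, y} : Set (AlgebraicClosure F)))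
        (AlgebraicClosure F) := IsScalarTower.of_algebraMap_eq fun _ => rfl
    have hxm : x ∈ IntermediateField.adjoin F ({x, y} : Set (AlgebraicClosure F)) :=
      IntermediateField.subset_adjoin F _ (Set.mem_insert _ _)
    have hym : y ∈ IntermediateField.adjoin F ({x, y} : Set (AlgebraicClosure F)) :=
      IntermediateField.subset_adjoin F _ (Set.mem_insert_of_mem _ (Set.mem_singleton _))
    exact dva_gen hβ h (⟨x, hxm⟩ : IntermediateField.adjoin F ({x, y} : Set (AlgebraicClosure F)))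
      ⟨y, hym⟩ rfl rfl

/-- the points over the algebraic closure are divisible -/
theorem div_Om {β : 𝓞 K} (hβ : β ≠ 0) (Q : S9.Pts (E F) (AlgebraicClosure F)) :
    ∃ R : S9.Pts (E F) (AlgebraicClosure F), smF F (AlgebraicClosure F) β R = Q := by
  obtain ⟨R', hR'⟩ := dva_aux (F := F) hβ (tr F (AlgebraicClosure F) Q)
  refine ⟨(tr F (AlgebraicClosure F)).symm R', ?_⟩
  apply (tr F (AlgebraicClosure F)).injective
  rw [tr_smF, AddEquiv.apply_symm_apply, hR']

theorem smF_coc (a : 𝓞 K) {C : S9.Gal F → S9.Pts (E F) (AlgebraicClosure F)}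
    (hC : C ∈ S9.coc (E F)) : (fun σ => smF F (AlgebraicClosure F) a (C σ)) ∈ S9.coc (E F) := by
  obtain ⟨hC1, hC2⟩ := hC
  refine ⟨hC1.comp (smF F (AlgebraicClosure F) a), fun σ τ => ?_⟩
  show smF F (AlgebraicClosure F) a (C (σ * τ)) = smF F (AlgebraicClosure F) a (C σ) +
    Affine.Point.map (σ : AlgebraicClosure F →ₐ[F] _) (smF F (AlgebraicClosure F) a (C τ))
  rw [hC2, _root_.map_add, smF_map]

theorem smF_triv (a : 𝓞 K) {C : S9.Gal F → S9.Pts (E F) (AlgebraicClosure F)} {L : Type*}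
    [Field L] [Algebra F L] (hC : C ∈ S9.trivOver (E F) L) :
    (fun σ => smF F (AlgebraicClosure F) a (C σ)) ∈ S9.trivOver (E F) L := by
  intro i
  obtain ⟨P, hP⟩ := hC i
  refine ⟨smF F (AlgebraicClosure L) a P, fun σ τ h => ?_⟩
  show Affine.Point.map i (smF F (AlgebraicClosure F) a (C τ)) =
    Affine.Point.map ((σ : AlgebraicClosure L →ₐ[L] _).restrictScalars F)
      (smF F (AlgebraicClosure L) a P) - smF F (AlgebraicClosure L) a P
  rw [smF_map, hP σ τ h, _root_.map_sub, smF_map]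

theorem smF_sha (a : 𝓞 K) {C : S9.Gal F → S9.Pts (E F) (AlgebraicClosure F)}
    (hC : C ∈ S9.shaCoc (E F)) :
    (fun σ => smF F (AlgebraicClosure F) a (C σ)) ∈ S9.shaCoc (E F) := by
  have h1 : C ∈ ⨅ v : HeightOneSpectrum (𝓞 F), S9.trivOver (E F) (v.adicCompletion F) := hC.1.2
  have h2 : C ∈ ⨅ v : InfinitePlace F, S9.trivOver (E F) v.Completion := hC.2
  refine ⟨⟨smF_coc a hC.1.1, ?_⟩, ?_⟩
  · exact AddSubgroup.mem_iInf.2 fun v => smF_triv a (AddSubgroup.mem_iInf.1 h1 v)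
  · exact AddSubgroup.mem_iInf.2 fun v => smF_triv a (AddSubgroup.mem_iInf.1 h2 v)

/-- devissage: division by `β` -/
theorem dev {β : 𝓞 K} (hβ0 : β ≠ 0) (hβ : ∀ C ∈ S9.shaCoc (E F),
      (∀ σ, smF F (AlgebraicClosure F) β (C σ) = 0) → C ∈ S9.cob (E F))
    {C : S9.Gal F → S9.Pts (E F) (AlgebraicClosure F)} (hC : C ∈ S9.shaCoc (E F))
    (h : (fun σ => smF F (AlgebraicClosure F) β (C σ)) ∈ S9.cob (E F)) : C ∈ S9.cob (E F) := by
  obtain ⟨Q, hQ⟩ := h
  obtain ⟨R, hR⟩ := div_Om hβ0 Q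
  have hd : (fun σ : S9.Gal F => Affine.Point.map (σ : AlgebraicClosure F →ₐ[F] _) R - R) ∈
      S9.cob (E F) := ⟨R, fun σ => rfl⟩
  have hc' : C - (fun σ : S9.Gal F => Affine.Point.map (σ : AlgebraicClosure F →ₐ[F] _) R - R) ∈
      S9.cob (E F) := by
    refine hβ _ (sub_mem hC (S9.cob_le_shaCoc (E F) hd)) fun σ => ?_
    have h1 : smF F (AlgebraicClosure F) β (C σ) =
        Affine.Point.map (σ : AlgebraicClosure F →ₐ[F] _) Q - Q := hQ σ
    rw [Pi.sub_apply, _root_.map_sub, h1, _root_.map_sub, ← smF_map, hR, sub_self]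
  have h5 := add_mem hc' hd
  rwa [sub_add_cancel] at h5

end

end Pool.Agent.Lib.MP_1a91b9_ntT.DH
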