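import Pool.Agent.Lib.MP_1a91b9_ntT.DX.Sat

/-!
# DH: saturation of the kernel of reduction over fields which are not number fields

PROOF (complete; stream DH of helper55, the `ℓ`-part of the Tate-Shafarevich group). Jobs SmA (`emb_sub`), SmB
(`ker_of_smM`), SmC (`exists_coprime_kerM`). NEVER use the tactics `convert` or `congr!` (lean-grade refuses).

SmA `emb_sub`. `M₀` = the set of the elements of `M` algebraic over `K(x)`, `K(x) = IntermediateField.adjoin K {x}`:
`M₁ = algebraicClosure (IntermediateField.adjoin K {x}) M` (an intermediate field of `M` over `K(x)`), `M₀ =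
M₁.restrictScalars K`. `x ∈ M₀`; elements algebraic over `M₀` are in `M₀` (transitivity:
`algebraicClosure`/`IsAlgebraic.trans`, `Algebra.IsAlgebraic.trans`). `M₀` is algebraic over `K(x)`, so (`IsAlgClosed.lift`, `ℂ` made
an algebra over `K(x)` by the embedding) it is enough to embed `K(x)` in `ℂ` over `K` (`Algebra K ℂ` is the instance `algKC`).
If `x` is algebraic over `K`, `K(x)` is algebraic over `K`: `IsAlgClosed.lift`. If `x` is transcendental over `K`: there
is a complex number `t` transcendental over `ℚ` (`transcendental_liouvilleNumber`, `Liouville.transcendental`, or countability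
`Algebraic.cardinalMk_..`/`Algebraic.countable`), then also over `K` (`K` is algebraic over `ℚ`: `Transcendental`/`IsAlgebraic`
`.restrictScalars`/`algebraicClosure`), `aeval t : K[X] → ℂ` is injective, `K(x)` is the fraction field of `K[X]` through `aeval x`
(`IntermediateField.algHomAdjoinIntegralEquiv` is for algebraic; for transcendental elements see
`IntermediateField.algEquivOfTranscendental`/`algebraAdjoinAlgEquiv..`, or `RatFunc`, `IsFractionRing.lift`;
`IntermediateField.adjoin_simple..`: every element is a quotient of two values of polynomials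
(`IntermediateField.mem_adjoin_simple_iff`)). helper51's proof of `alg_of_div` in DX/Ex.lean builds such homomorphisms
(file /team-store/MP_1a91b9_nt_DX_ExA.lean); you can copy from it.

SmB `ker_of_smM`. As `ker_of_sm` in DX/Sat (read its proof), the only new point is the embedding in `ℂ`, needed for `dist_two`.
Let `x = xc Q`, `M₀` from `emb_sub`, `f₀ : M₀ →ₐ[K] ℂ`. The field `M₀` contains `x`, `yc Q` (a root of `Y^2 + Y - x^3`, if `Q = 0` there is
nothing to prove) and the image of every element of `L` (algebraic over `K`, hence over `M₀`). So `Q = pm M₀.val Q₀` and (`R' = pm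
(IsScalarTower.toAlgHom K L M) R`) `R' = pm M₀.val R₀` for points `Q₀, R₀` of `Pt M₀`, `Ord β R₀` (`Ord.map` twice),
and with `v₀ = v.comap M₀.val`: `Ker v₀ P ↔ Ker v (pm M₀.val P)` (`xc_pm`, `pm_inj`). `dist_two f₀ hβ0 hβ1 hT hR₀`. The facts
`Ker v R'` and `v (yc (ptS M + sm M c R')) = 1` for `¬ β ∣ c` come from `ker_of_val` and `yS_unit` for the number
field `L` with the valuation `v.comap (algebraMap L M)` (`pm_sm`, `pm_S`, `yc_pm`, `map_add`). Then as in `ker_of_sm`: by
contradiction `Q` is not in the kernel; `Q + sm a R'` (`add_ker`) are not in the kernel so their ordinates have `v ≤ 1`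
(`not_ker`); if `sm β Q = 0` then `Q₀ = sm c R₀` (`ord_cases f₀`) is in the kernel; otherwise `1 < v (yc (sm β Q))`
(`ker_iff_y`) contradicts `dist_two`.

SmC `exists_coprime_kerM`. `v 3 = 1`, `v ϖ < 1` (`hv`, `pd_val_three`). (1) some `n > 0` has `Ker v (n • P)`: as
`exists_nsmul_ker` in DX/Sat: otherwise the coordinates of the `i • P` (`i > 0`) are integral at `v` (`not_ker`),
congruent to elements `x` of `L` (`hd` with `n = 1`), `W.valuation L x ≤ 1` (`hv`), which are congruent modulo `W` to integers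
(`exists_val_lt_of_int`), `𝓞 L/W` is finite: two of them, `i < j`, have the same reductions, `red_inj`. (2) let `n > 0` be
minimal with `Ker v (n • P)` (`Nat.find`). If `n = ℓ m`: `ℓ = ϖ u` (`h.dvd`), `sm ϖ (sm u (m • P)) = n • P` is in the
kernel (`sm_nat`), so `sm u (m • P)` is in the kernel by `ker_of_smM`; `ϖ * ϖ = q` (`pd_mul_cj`, `hi`), `q = ℓ ^ 2` (`pd_cases`;
in the case `q = ℓ`, `IsCoprime ϖ (cj ϖ)` contradicts `hi`), so `u^2 = 1`, `sm u (sm u (m • P)) = m • P` is in the kernel
(`ker_sm`), contradiction with minimality. So `n` is prime to `ℓ` (`ℓ` is prime).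
-/

set_option autoImplicit false

namespace Pool.Agent.Lib.MP_1a91b9_ntT.DH

open NumberField IsDedekindDomain WeierstrassCurve DB DX

universe u

private theorem sma_trans : ∃ t : ℂ, Transcendental K t := by
  have h1 : Transcendental ℤ (liouvilleNumber 2) := by
    exact_mod_cast transcendental_liouvilleNumber (m := 2) le_rfl
  refine ⟨((liouvilleNumber 2 : ℝ) : ℂ), fun h => h1 ?_⟩
  have h2 : IsAlgebraic ℤ ((liouvilleNumber 2 : ℝ) : ℂ) := by
    have h3 : IsAlgebraic ℚ ((liouvilleNumber 2 : ℝ) : ℂ) := h.restrictScalars ℚ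
    exact (IsFractionRing.isAlgebraic_iff ℤ ℚ ℂ).2 h3
  have h4 : ((liouvilleNumber 2 : ℝ) : ℂ) = algebraMap ℝ ℂ (liouvilleNumber 2) := rfl
  rw [h4] at h2
  exact (isAlgebraic_algebraMap_iff (algebraMap ℝ ℂ).injective).1 h2

open IntermediateField in
private theorem sma_simple {M : Type u} [Field M] [Algebra K M] (x : M) :
    Nonempty (K⟮x⟯ →ₐ[K] ℂ) := by
  by_cases hx : IsAlgebraic K x
  · have : Algebra.IsAlgebraic K K⟮x⟯ := IntermediateField.isAlgebraic_adjoin_simple hx.isIntegral
    exact ⟨IsAlgClosed.lift⟩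
  · obtain ⟨t, ht⟩ := sma_trans
    exact ⟨(K⟮t⟯).val.comp ((RatFunc.algEquivOfTranscendental t ht).toAlgHom.comp
      (RatFunc.algEquivOfTranscendental x hx).symm.toAlgHom)⟩

/-- a subfield which contains `x`, is algebraically closed in `M` and embeds in `ℂ` -/
theorem emb_sub {M : Type u} [Field M] [Algebra K M] (x : M) :
    ∃ M₀ : IntermediateField K M, x ∈ M₀ ∧ (∀ z : M, IsAlgebraic M₀ z → z ∈ M₀) ∧
      Nonempty (M₀ →ₐ[K] ℂ) := by
  obtain ⟨g⟩ := sma_simple x
  let F := IntermediateField.adjoin K {x}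
  let M₁ : IntermediateField F M := algebraicClosure F M
  refine ⟨M₁.restrictScalars K, ?_, ?_, ?_⟩
  · show x ∈ M₁
    have h1 : x ∈ F := IntermediateField.mem_adjoin_simple_self K x
    exact M₁.algebraMap_mem ⟨x, h1⟩
  · intro z hz
    show z ∈ M₁
    have h1 : IsAlgebraic M₁ z := hz
    rw [mem_algebraicClosure_iff]
    have : Algebra.IsAlgebraic F M₁ := algebraicClosure.isAlgebraic F M
    exact h1.restrictScalars F
  · let _ : Algebra F ℂ := g.toRingHom.toAlgebra
    have : IsScalarTower K F ℂ := IsScalarTower.of_algebraMap_eq fun k => (g.commutes k).symm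
    have : Algebra.IsAlgebraic F M₁ := algebraicClosure.isAlgebraic F M
    let e : M₁ →ₐ[F] ℂ := IsAlgClosed.lift
    exact ⟨e.restrictScalars K⟩

section
variable {L M : Type u} [Field L] [NumberField L] [Field M] [Algebra L M]

/-- approximation of an integral element by an integer of the number field -/
private theorem smc_int (W : HeightOneSpectrum (𝓞 L)) (v : Valuation M (WithZero (Multiplicative ℤ)))
    (hv : ∀ x : L, v (algebraMap L M x) = W.valuation L x)
    (hd : ∀ (m : M) (n : ℕ), ∃ x : L, v (m - algebraMap L M x) ≤ WithZero.exp (-(n : ℤ)))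
    {m : M} (hm : v m ≤ 1) : ∃ z : 𝓞 L, v (m - algebraMap L M (z : L)) < 1 := by
  have hexp : WithZero.exp (-((1 : ℕ) : ℤ)) < (1 : WithZero (Multiplicative ℤ)) := by
    rw [← WithZero.exp_zero, WithZero.exp_lt_exp]
    norm_num
  obtain ⟨x, hx⟩ := hd m 1
  have hx1 : v (m - algebraMap L M x) < 1 := lt_of_le_of_lt hx hexp
  have hxi : W.valuation L x ≤ 1 := by
    rw [← hv x]
    have e : algebraMap L M x = m - (m - algebraMap L M x) := by ring
    rw [e]
    exact (v.map_sub _ _).trans (max_le hm hx1.le)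
  obtain ⟨z, hz⟩ := exists_val_lt_of_int W hxi 1
  refine ⟨z, ?_⟩
  have e : m - algebraMap L M (z : L) = (m - algebraMap L M x) + algebraMap L M (x - (z : L)) := by
    rw [map_sub]
    ring
  rw [e]
  refine v.map_add_lt hx1 ?_
  rw [hv]
  exact lt_of_le_of_lt hz hexp

end

section
variable {L M : Type u} [Field L] [NumberField L] [Field M]
  [Algebra K M] [Algebra L M] [DecidableEq M]

private theorem smc_nsmul (W : HeightOneSpectrum (𝓞 L)) (v : Valuation M (WithZero (Multiplicative ℤ)))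
    (hv : ∀ x : L, v (algebraMap L M x) = W.valuation L x)
    (hd : ∀ (m : M) (n : ℕ), ∃ x : L, v (m - algebraMap L M x) ≤ WithZero.exp (-(n : ℤ)))
    (h3 : v (3 : M) = 1) (P : Pt M) : ∃ n : ℕ, 0 < n ∧ Ker v (n • P) := by
  by_contra hcon
  push Not at hcon
  have hfin : Finite (𝓞 L ⧸ W.asIdeal) := Ideal.finiteQuotientOfFreeOfNeBot _ W.ne_bot
  have hX : ∀ n : ℕ, ∃ x : 𝓞 L, v (xc ((n + 1) • P) - algebraMap L M (x : L)) < 1 := fun n =>
    smc_int W v hv hd (not_ker _ (hcon (n + 1) n.succ_pos)).2.1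
  have hY : ∀ n : ℕ, ∃ x : 𝓞 L, v (yc ((n + 1) • P) - algebraMap L M (x : L)) < 1 := fun n =>
    smc_int W v hv hd (not_ker _ (hcon (n + 1) n.succ_pos)).2.2
  choose X hX using hX
  choose Y hY using hY
  obtain ⟨i, j, hij, he⟩ := Finite.exists_ne_map_eq_of_infinite
    (fun n : ℕ => (Ideal.Quotient.mk W.asIdeal (X n), Ideal.Quotient.mk W.asIdeal (Y n)))
  have hred : ∀ a b : 𝓞 L, Ideal.Quotient.mk W.asIdeal a = Ideal.Quotient.mk W.asIdeal b →
      v (algebraMap L M (a : L) - algebraMap L M (b : L)) < 1 := by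
    intro a b hab
    rw [← map_sub, hv]
    have := (W.valuation_lt_one_iff_mem (K := L) (a - b)).2 (Ideal.Quotient.eq.1 hab)
    simpa using this
  have key : ∀ i j : ℕ, i < j → Ideal.Quotient.mk W.asIdeal (X i) =
      Ideal.Quotient.mk W.asIdeal (X j) → Ideal.Quotient.mk W.asIdeal (Y i) =
      Ideal.Quotient.mk W.asIdeal (Y j) → False := by
    intro i j hij h1 h2
    have h1' := hred _ _ h1
    have h2' := hred _ _ h2
    have h4 : v (xc ((i + 1) • P) - xc ((j + 1) • P)) < 1 := by
      have e : xc ((i + 1) • P) - xc ((j + 1) • P) =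
          (xc ((i + 1) • P) - algebraMap L M (X i : L)) +
          (algebraMap L M (X i : L) - algebraMap L M (X j : L)) -
          (xc ((j + 1) • P) - algebraMap L M (X j : L)) := by ring
      rw [e]
      exact v.map_sub_lt (v.map_add_lt (hX i) h1') (hX j)
    have h5 : v (yc ((i + 1) • P) - yc ((j + 1) • P)) < 1 := by
      have e : yc ((i + 1) • P) - yc ((j + 1) • P) =
          (yc ((i + 1) • P) - algebraMap L M (Y i : L)) +
          (algebraMap L M (Y i : L) - algebraMap L M (Y j : L)) -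
          (yc ((j + 1) • P) - algebraMap L M (Y j : L)) := by ring
      rw [e]
      exact v.map_sub_lt (v.map_add_lt (hY i) h2') (hY j)
    have h6 := red_inj v h3 (hcon (i + 1) i.succ_pos) (hcon (j + 1) j.succ_pos) h4 h5
    have h7 := ker_neg _ h6
    have h8 : -((i + 1) • P - (j + 1) • P) = (j - i) • P := by
      obtain ⟨d, rfl⟩ := Nat.exists_eq_add_of_lt hij
      have e2 : i + d + 1 + 1 = (d + 1) + (i + 1) := by ring
      have e3 : i + d + 1 - i = d + 1 := by omega
      rw [e3, neg_sub, sub_eq_iff_eq_add, e2, add_nsmul]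
    rw [h8] at h7
    exact hcon (j - i) (Nat.sub_pos_of_lt hij) h7
  have he1 := congrArg Prod.fst he
  have he2 := congrArg Prod.snd he
  rcases lt_or_gt_of_ne hij with h | h
  · exact key i j h he1 he2
  · exact key j i h he1.symm he2.symm

end

private theorem smb_core {F : Type*} [Field F] [Algebra K F] [DecidableEq F] (f : F →ₐ[K] ℂ)
    {Γ : Type*} [LinearOrderedCommGroupWithZero Γ] (v : Valuation F Γ) {β : 𝓞 K} (hβ0 : β ≠ 0)
    (hβ1 : (3 : 𝓞 K) ∣ β - 1) {R : Pt F} (hR : Ord β R) (hRK : Ker v R)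
    (hy : ∀ c : 𝓞 K, ¬ β ∣ c → v (yc (ptS F + sm F c R)) = 1) {Q : Pt F}
    (hQ : Ker v (sm F β Q)) : Ker v Q := by
  by_contra hQ0
  obtain ⟨T, hT, -⟩ := exists_isRes hβ0
  by_cases h0 : sm F β Q = 0
  · obtain ⟨c, rfl⟩ := ord_cases f hβ0 hR h0
    exact hQ0 (ker_sm v hRK c)
  have h1 : 1 < v (xc (sm F β Q)) := hQ.resolve_left h0
  have h2 : 1 < v (yc (sm F β Q)) := (ker_iff_y v h0).1 h1
  have h3 : yc (sm F β Q) ≠ 0 := by
    intro h
    rw [h, map_zero] at h2
    exact absurd h2 (not_lt.2 zero_le)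
  have h4 := congrArg v (dist_two f hβ0 hβ1 hT hR h0 h3)
  rw [map_mul, map_mul, map_prod, map_prod] at h4
  have h5 : ∏ a ∈ T, v (yc (ptS F + sm F a R)) = 1 :=
    Finset.prod_eq_one fun a ha => hy a (hT.nz a ha)
  have h6 : ∏ a ∈ T, v (yc (Q + sm F a R)) ≤ 1 :=
    Finset.prod_le_one' fun a _ =>
      (not_ker v (add_ker v hQ0 (ker_sm v hRK a)).1).2.2
  rw [h5, mul_one] at h4
  rw [h4] at h2
  exact absurd h2 (not_lt.2 (mul_le_one' (not_ker v hQ0).2.2 h6))

private theorem smb_ker {F F' : Type*} [Field F] [Algebra K F] [DecidableEq F] [Field F']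
    [Algebra K F'] [DecidableEq F'] (g : F →ₐ[K] F') {Γ : Type*}
    [LinearOrderedCommGroupWithZero Γ] (v : Valuation F' Γ) (P : Pt F) :
    Ker v (pm g P) ↔ Ker (v.comap (g : F →+* F')) P := by
  unfold Ker
  rw [xc_pm]
  refine or_congr ?_ Iff.rfl
  constructor
  · intro h
    exact pm_inj g (h.trans (map_zero _).symm)
  · rintro rfl
    exact map_zero _

section
variable {L M : Type u} [Field L] [NumberField L] [Algebra K L] [DecidableEq L] [Field M]
  [Algebra K M] [Algebra L M] [IsScalarTower K L M] [DecidableEq M]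

/-- the kernel of reduction is saturated with respect to a prime element of the residue
characteristic -/
theorem ker_of_smM {Γ : Type*} [LinearOrderedCommGroupWithZero Γ] (v : Valuation M Γ) {β : 𝓞 K}
    (hβ : Prime β) (hβ1 : (3 : 𝓞 K) ∣ β - 1) {R : Pt L} (hR : Ord β R)
    (hv : v (algebraMap K M (β : K)) < 1) {Q : Pt M} (hQ : Ker v (sm M β Q)) : Ker v Q := by
  classical
  rcases cases_pt Q with rfl | ⟨x, y, hxy, rfl⟩
  · exact Or.inl rfl
  obtain ⟨M₀, hx, hcl, ⟨f⟩⟩ := emb_sub x
  have hy : y ∈ M₀ := by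
    apply hcl
    refine ⟨Polynomial.X ^ 2 + Polynomial.X - Polynomial.C ((⟨x, hx⟩ : M₀) ^ 3), ?_, ?_⟩
    · intro h0
      have h1 := congrArg (fun p => Polynomial.coeff p 2) h0
      simp [Polynomial.coeff_X, Polynomial.coeff_C] at h1
    · simp only [map_sub, map_add, map_pow, Polynomial.aeval_X, Polynomial.aeval_C]
      show y ^ 2 + y - x ^ 3 = 0
      rw [hxy, sub_self]
  have hL : ∀ z : L, algebraMap L M z ∈ M₀ := by
    intro z
    apply hcl
    have h1 : IsAlgebraic K z := by
      have : Algebra.IsAlgebraic ℚ L := inferInstance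
      have h2 : IsAlgebraic ℚ z := Algebra.IsAlgebraic.isAlgebraic z
      exact h2.tower_top K
    have h2 : IsAlgebraic K (algebraMap L M z) := h1.algebraMap
    exact h2.tower_top M₀
  let jL : L →ₐ[K] M₀ := (IsScalarTower.toAlgHom K L M).codRestrict M₀.toSubalgebra hL
  have hj : ∀ z : L, ((jL z : M₀) : M) = algebraMap L M z := fun z => rfl
  have hQe : pm M₀.val (mkPt (⟨x, hx⟩ : M₀) ⟨y, hy⟩ (Subtype.ext hxy)) = mkPt x y hxy := rfl
  rw [← hQe] at hQ ⊢
  rw [← pm_sm, smb_ker] at hQ
  rw [smb_ker]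
  have hRo : Ord β (pm jL R) := (Ord.map jL).2 hR
  have hvL : ((v.comap (M₀.val : M₀ →+* M)).comap (jL : L →+* M₀))
      (algebraMap K L (β : K)) < 1 := by
    show v ((jL (algebraMap K L (β : K)) : M₀) : M) < 1
    rw [hj, ← IsScalarTower.algebraMap_apply K L M]
    exact hv
  refine smb_core f (v.comap (M₀.val : M₀ →+* M)) hβ.ne_zero hβ1 hRo ?_ ?_ hQ
  · rw [smb_ker]
    exact ker_of_val _ hβ hβ1 hR hvL
  · intro c hc
    have h1 := yS_unit ((v.comap (M₀.val : M₀ →+* M)).comap (jL : L →+* M₀)) hβ hβ1 hR hc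
    rw [← pm_S jL, ← pm_sm, ← map_add, yc_pm]
    exact h1

/-- inert case: a multiple of order prime to `ℓ` lies in the kernel of reduction -/
theorem exists_coprime_kerM {ϖ : 𝓞 K} {ℓ q : ℕ} (h : PD ϖ ℓ q) (hi : cj ϖ = ϖ)
    (W : HeightOneSpectrum (𝓞 L)) (v : Valuation M (WithZero (Multiplicative ℤ)))
    (hv : ∀ x : L, v (algebraMap L M x) = W.valuation L x)
    (hd : ∀ (m : M) (n : ℕ), ∃ x : L, v (m - algebraMap L M x) ≤ WithZero.exp (-(n : ℤ)))
    {R : Pt L} (hR : Ord ϖ R) (hW : W.valuation L (algebraMap K L (ϖ : K)) < 1) (P : Pt M) :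
    ∃ n : ℕ, n.Coprime ℓ ∧ Ker v (n • P) := by
  classical
  have h3 : v (3 : M) = 1 := by
    have e := hv (3 : L)
    rw [map_ofNat] at e
    rw [e]
    exact pd_val_three h hW
  have hvK : v (algebraMap K M (ϖ : K)) < 1 := by
    rw [IsScalarTower.algebraMap_apply K L M, hv]
    exact hW
  have hex := smc_nsmul W v hv hd h3 P
  obtain ⟨hn0, hnK⟩ := Nat.find_spec hex
  refine ⟨Nat.find hex, ?_, hnK⟩
  rw [Nat.coprime_comm, h.hl.coprime_iff_not_dvd]
  rintro ⟨m, hm⟩
  have hq : q = ℓ ^ 2 := by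
    rcases pd_cases h with ⟨_, hc⟩ | ⟨hq, _⟩
    · rw [hi] at hc
      exact absurd (isCoprime_self.1 hc) h.prime.not_isUnit
    · exact hq
  have hsq : (ϖ - (ℓ : 𝓞 K)) * (ϖ + (ℓ : 𝓞 K)) = 0 := by
    have e := pd_mul_cj h
    rw [hi, hq] at e
    push_cast at e
    linear_combination e
  have hm0 : 0 < m := by
    rcases Nat.eq_zero_or_pos m with h0 | h0
    · rw [h0, mul_zero] at hm
      omega
    · exact h0
  have hl1 : 1 < ℓ := h.hl.one_lt
  have hmn : m < Nat.find hex := by
    rw [hm]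
    exact lt_mul_of_one_lt_left hm0 hl1
  refine Nat.find_min hex hmn ⟨hm0, ?_⟩
  apply ker_of_smM v h.prime h.one hR hvK
  rw [hm, mul_nsmul', ← sm_nat] at hnK
  rcases mul_eq_zero.1 hsq with h1 | h1
  · rw [sub_eq_zero.1 h1]
    exact hnK
  · rw [eq_neg_of_add_eq_zero_left h1, map_neg]
    exact ker_neg _ hnK

end

end Pool.Agent.Lib.MP_1a91b9_ntT.DH
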