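import Pool.Agent.Lib.MP_1a91b9_ntT.DH.Tr
import Pool.Agent.Lib.MP_1a91b9_ntT.S9.LA

/-!
# DH: from local triviality over the completions to `LocSol`

PROOF (complete; stream DH of helper55, the `ℓ`-part of the Tate-Shafarevich group). Jobs LoA (`transferG`), LoB
(`exists_ghat`), LoC (`locSol_of_triv`). NEVER use the tactics `convert` or `congr!` (lean-grade refuses).

LoA `transferG`: the proof of `S9.transfer` (file S9/TA.lean, read it), part (a), with `L' bar` replaced by an algebraically closed
field `Ω` over `L₀` and `Gal L'` by the automorphisms of `Ω` over `L₀`: `j : AlgebraicClosure L₀ →ₐ[L₀] Ω`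
(`IsAlgClosed.lift`), `i : AlgebraicClosure k →ₐ[k] AlgebraicClosure L₀`, `S9.exists_comp` gives `ρ` with `ι x = j (i (ρ x))`, `i' = i ∘ ρ`,
`trivOver` for `i'` gives `P₁`, `P = j P₁`. For `σ`, `τ` with `ι (τ x) = σ (ι x)`: `S9.exists_comp` (`k := L₀`, `f = j`,
`g = σ ∘ j`) gives `σ' : Gal L₀` with `σ (j x) = j (σ' x)`; `i' (τ x) = σ' (i' x)`; apply `j` to `i' (c τ) = σ' P₁ - P₁`.

LoB `exists_ghat`: `v = S5.below F W`. The map `g : L → L` is an isometry for the valuation of `W` (`gpl_val g W`, `hg`), so it is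
uniformly continuous for `WithVal (W.valuation L)` and extends to the completion (`adicCompletion.equiv`,
`UniformSpace.Completion.mapRingHom` with continuity, `mapRingHom_coe`; see the proof of `S9.exists_compMap` in S9/LA.lean, which does
exactly this for `N → A`; continuity of a ring homomorphism for the valuation topologies: `Valued.continuous_..`,
`WithVal` API, or `continuous_of_continuousAt_zero` with `Valued.mem_nhds_zero`). Call it `ĝ`, `h` the extension of `g⁻¹` (`gpl g⁻¹ W = W`
by `gpl_mul`, `gpl_one`): `ĝ (h m) = m` and `h (ĝ m) = m` on the dense subset `L` (`S9/LA`: `denseRange_algebraMap L W`), both sides are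
continuous, the space is Hausdorff (`DenseRange.equalizer`/`Continuous.ext_on`): `ĝ` is a ring isomorphism (`RingEquiv.ofRingHom` or
`RingEquiv.ofHomInv`). `Valued.v (ĝ m) = Valued.v m`: as the second claim of `S9.exists_compMap` (locally constant,
`Valued.locally_const`, density), `valuedAdicCompletion_eq_valuation'`. `ĝ (φ y) = φ y`: `φ` is continuous (its valuation is
`(Valued.v y)^ram`, `ram > 0`: `S5.ram_pos`; or a ring homomorphism which satisfies `hφv` is continuous at `0`), the two sides agree
for `y` in the dense subset `F` (`hφ`, `g` fixes `F`: `AlgEquiv.commutes`).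

LoC `locSol_of_triv`. `M = W.adicCompletion L`, `v = Valued.v`; `φ` from `S9.exists_compMap F W`; `Algebra` structures: `F_v → M` is `φ.toAlgebra`
(`F_v = (S5.below F W).adicCompletion F`), `F → M` and `K → M` by composition through `L` (`let _ : Algebra F M := ((algebraMap L M).comp
(algebraMap F L)).toAlgebra`, see `local_all` in S9/MC.lean), towers `F, F_v, M` (from `h1`) and `F, L, M`, `K, L, M`. `Ω' =
AlgebraicClosure M` (instances over `M`; over `F_v`, `F`, `L`, `K` Mathlib has instances `AlgebraicClosure.instAlgebra`-like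
for `[Algebra R M]` with scalar towers). `Ω = AlgebraicClosure F` is algebraic over `L` (`L : IntermediateField F Ω`), so there is
`ι₀ : Ω →ₐ[L] Ω'` (`IsAlgClosed.lift`), `ι = ι₀.restrictScalars F`, with `ι (x : Ω) = algebraMap M Ω' (algebraMap L M x)` for `x : L`.
`transferG` (`k = F`, `L₀ = F_v`, `hC`): `P : Pts (E F) Ω'`. `P` is fixed by `Gal(Ω'/M)`: for `σ : Ω' ≃ₐ[M] Ω'`, `S9.exists_comp ι (σ ∘ ι)`
gives `τ` with `ι (τ x) = σ (ι x)`, `τ` fixes `L`, so `C τ = 0` (`hL`), `σ P = P` (use `σ.restrictScalars F_v`). By `S9.fixed_pt`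
(`k = F`, `L := M`) `P = up P₁`, `P₁ : Pts (E F) M`. The point of `LocSol` is `tr F M P₁`. Density: `denseRange_algebraMap L W` and
`Valued.mem_nhds` (balls; `WithZero.exp (-n)` is a unit value). For `g : Gal(L/F)` with `gpl g W = W`: `ĝ` from `exists_ghat`; `f : M →ₐ[K] M`
from `ĝ` (`commutes'`: `ĝ` extends `g`, `g` fixes the image of `K`); `g̃ : Ω' ≃+* Ω'` extends `ĝ` (`IsAlgClosure.equivOfEquiv Ω' Ω' ĝ`,
`IsAlgClosure.equivOfEquiv_algebraMap`), it is an `F_v`-automorphism (`ĝ (φ y) = φ y`): `σ : Ω' ≃ₐ[F_v] Ω'`. `τ` with `ι (τ x) = σ (ι x)`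
(`S9.exists_comp`); for `x : L`: `ι (τ x) = σ (ι x) = algebraMap M Ω' (ĝ x) = ι (g x)`, so `τ x = g x` and `τ.restrictNormal L = g`
(`AlgEquiv.restrictNormal_commutes`). `ι (C τ) = σ P - P = (ĝ P₁ - P₁)` in `Ω'`, and `tr F Ω (C τ) = pm _ (κ g)` (`hκ`): by `tr_map`
and the injectivity of `Pt M → Pt Ω'` (`pm_inj`): `pm f (tr P₁) - tr P₁ = pm _ (κ g)`.
-/

set_option autoImplicit false

namespace Pool.Agent.Lib.MP_1a91b9_ntT.DH

open NumberField IsDedekindDomain WeierstrassCurve DB DX
open scoped Classical

universe u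

theorem transferG {k L₀ Ω : Type*} [Field k] [CharZero k] [Field L₀] [Algebra k L₀] [Field Ω]
    [IsAlgClosed Ω] [Algebra k Ω] [Algebra L₀ Ω] [IsScalarTower k L₀ Ω] (W : WeierstrassCurve k)
    (c : S9.Gal k → S9.Pts W (AlgebraicClosure k)) (hc : c ∈ S9.trivOver W L₀)
    (ι : AlgebraicClosure k →ₐ[k] Ω) :
    ∃ P : S9.Pts W Ω, ∀ (σ : Ω ≃ₐ[L₀] Ω) (τ : S9.Gal k), (∀ x, ι (τ x) = σ (ι x)) →
      Affine.Point.map ι (c τ) =
        Affine.Point.map ((σ : Ω →ₐ[L₀] Ω).restrictScalars k) P - P := by
  have : CharZero L₀ := charZero_of_injective_algebraMap (algebraMap k L₀).injective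
  let j : AlgebraicClosure L₀ →ₐ[L₀] Ω := IsAlgClosed.lift
  let jk : AlgebraicClosure L₀ →ₐ[k] Ω := j.restrictScalars k
  let i : AlgebraicClosure k →ₐ[k] AlgebraicClosure L₀ := IsAlgClosed.lift
  obtain ⟨ρ, hρ⟩ := S9.exists_comp (jk.comp i) ι
  let i' : AlgebraicClosure k →ₐ[k] AlgebraicClosure L₀ := i.comp (ρ : _ →ₐ[k] _)
  have hι : ∀ x, ι x = jk (i' x) := hρ
  have hι' : jk.comp i' = ι := by
    ext x
    exact (hι x).symm
  obtain ⟨P, hP⟩ := hc i'
  refine ⟨Affine.Point.map jk P, fun σ τ hστ => ?_⟩
  obtain ⟨σ', hσ'⟩ := S9.exists_comp j ((σ : Ω →ₐ[L₀] Ω).comp j)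
  have h5 : ∀ x, i' (τ x) = σ' (i' x) := by
    intro x
    apply jk.injective
    change jk (i' (τ x)) = jk (σ' (i' x))
    rw [← hι, hστ, hι]
    exact hσ' (i' x)
  have h6 := hP σ' τ h5
  have h7 := congrArg (Affine.Point.map jk) h6
  rw [Affine.Point.map_map, hι', _root_.map_sub, Affine.Point.map_map] at h7
  rw [h7, Affine.Point.map_map]
  congr 3
  ext x
  exact (hσ' x).symm

private theorem lob_nhds {R : Type*} [Field R] [Valued R (WithZero (Multiplicative ℤ))]
    {s : Set R} : s ∈ nhds (0 : R) ↔ ∃ a : R, a ≠ 0 ∧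
      ∀ x : R, Valued.v x < Valued.v a → x ∈ s := by
  constructor
  · intro hs
    obtain ⟨γ, hγ⟩ := Valued.mem_nhds_zero.1 hs
    obtain ⟨r, t, hr0, ht0, hrt⟩ := Valuation.exists_div_eq_of_unit Valued.v γ
    refine ⟨r / t, div_ne_zero ?_ ?_, fun x hx => hγ ?_⟩
    · rintro rfl
      rw [_root_.map_zero] at hr0
      exact lt_irrefl _ hr0
    · rintro rfl
      rw [_root_.map_zero] at ht0
      exact lt_irrefl _ ht0
    · change Valued.v.restrict x < γ.1
      rw [← hrt, ← map_div₀, Valuation.restrict_lt_iff]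
      exact hx
  · rintro ⟨a, ha, h⟩
    have h1 : Valued.v.restrict a ≠ 0 := by
      rw [Ne, map_eq_zero]
      exact ha
    refine Valued.mem_nhds_zero.2 ⟨Units.mk0 _ h1, fun x hx => h x ?_⟩
    exact (Valuation.restrict_lt_iff _).1 hx

private theorem lob_cont {R S : Type*} [Field R] [Valued R (WithZero (Multiplicative ℤ))]
    [Field S] [Valued S (WithZero (Multiplicative ℤ))] (f : R →+* S)
    (h : ∀ a : S, a ≠ 0 → ∃ b : R, b ≠ 0 ∧
      ∀ x : R, Valued.v x < Valued.v b → Valued.v (f x) < Valued.v a) : Continuous f := by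
  refine continuous_of_continuousAt_zero f ?_
  rw [ContinuousAt, _root_.map_zero]
  intro s hs
  obtain ⟨a, ha, h1⟩ := lob_nhds.1 hs
  obtain ⟨b, hb, h2⟩ := h a ha
  exact lob_nhds.2 ⟨b, hb, fun x hx => h1 _ (h2 x hx)⟩

open HeightOneSpectrum in
private theorem lob_ext {L : Type u} [Field L] [NumberField L] (W : HeightOneSpectrum (𝓞 L))
    (g : L ≃+* L) (hg : ∀ x, W.valuation L (g x) = W.valuation L x) :
    ∃ h : W.adicCompletion L →+* W.adicCompletion L, Continuous h ∧
      (∀ x : L, h (algebraMap L _ x) = algebraMap L _ (g x)) ∧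
      ∀ m, Valued.v (h m) = Valued.v m := by
  have hc : Continuous (WithVal.map (W.valuation L) (W.valuation L) g.toRingHom) := by
    refine lob_cont _ fun a ha => ⟨WithVal.toVal _ (g.symm a.ofVal), ?_, fun x hx => ?_⟩
    · intro h
      rw [WithVal.toVal_eq_zero] at h
      have h1 : a.ofVal = 0 := g.symm.injective (by rw [h, _root_.map_zero])
      exact ha ((WithVal.ofVal_eq_zero _ a).1 h1)
    · have h1 : W.valuation L x.ofVal < W.valuation L (g.symm a.ofVal) := hx
      rw [← hg x.ofVal, ← hg (g.symm a.ofVal), RingEquiv.apply_symm_apply] at h1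
      exact h1
  let ψ := UniformSpace.Completion.mapRingHom _ hc
  let φ : W.adicCompletion L →+* W.adicCompletion L :=
    (adicCompletion.equiv L W).symm.toRingHom.comp
      (ψ.comp (adicCompletion.equiv L W).toRingHom)
  have hφ : ∀ x, φ x = adicCompletion.ofCompletion (ψ x.toCompletion) := fun x => rfl
  have hφc : Continuous φ := by
    have h1 : Continuous ψ := UniformSpace.Completion.continuous_map
    exact (adicCompletion.continuous_ofCompletion L W).comp
      (h1.comp (adicCompletion.continuous_toCompletion L W))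
  have h1 : ∀ x : L, φ (algebraMap L _ x) = algebraMap L _ (g x) := by
    intro x
    rw [hφ]
    apply adicCompletion.ext
    exact UniformSpace.Completion.mapRingHom_coe hc _
  refine ⟨φ, hφc, h1, fun x => ?_⟩
  by_cases hx : x = 0
  · subst hx
    rw [_root_.map_zero]
  · have e1 : {y : W.adicCompletion L | (Valued.v y : WithZero (Multiplicative ℤ)) =
        Valued.v x} ∈ nhds x := Valued.locally_const ((Valuation.ne_zero_iff _).mpr hx)
    have hφx : φ x ≠ 0 := (map_ne_zero φ).mpr hx
    have e2 : {y : W.adicCompletion L | (Valued.v y : WithZero (Multiplicative ℤ)) =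
        Valued.v (φ x)} ∈ nhds (φ x) := Valued.locally_const ((Valuation.ne_zero_iff _).mpr hφx)
    have e3 := Filter.inter_mem e1 (hφc.continuousAt.preimage_mem_nhds e2)
    obtain ⟨a, ha1, ha2⟩ := (denseRange_algebraMap L W).mem_nhds e3
    have ha1' : Valued.v (algebraMap L (W.adicCompletion L) a) = Valued.v x := ha1
    have ha2' : Valued.v (φ (algebraMap L (W.adicCompletion L) a)) = Valued.v (φ x) := ha2
    rw [← ha2', ← ha1', h1]
    have e4 : Valued.v (algebraMap L (W.adicCompletion L) (g a)) =
      W.valuation L (g a) := valuedAdicCompletion_eq_valuation' W _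
    have e5 : Valued.v (algebraMap L (W.adicCompletion L) a) =
      W.valuation L a := valuedAdicCompletion_eq_valuation' W _
    rw [e4, e5, hg]

private theorem lob_eq {L X : Type*} [Field L] [NumberField L] (W : HeightOneSpectrum (𝓞 L))
    [TopologicalSpace X] [T2Space X] {f f' : W.adicCompletion L → X} (hf : Continuous f)
    (hf' : Continuous f')
    (h : ∀ x : L, f (algebraMap L _ x) = f' (algebraMap L _ x)) (m : W.adicCompletion L) :
    f m = f' m := by
  have h1 := (HeightOneSpectrum.denseRange_algebraMap L W).equalizer hf hf' (funext h)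
  exact congrFun h1 m

/-- the extension to the completion of an automorphism in the decomposition group -/
theorem exists_ghat {F L : Type u} [Field F] [NumberField F] [Field L] [NumberField L]
    [Algebra F L] (W : HeightOneSpectrum (𝓞 L)) (g : Gal(L/F)) (hg : gpl g W = W)
    (φ : (S5.below F W).adicCompletion F →+* W.adicCompletion L)
    (hφ : ∀ x : F, φ (algebraMap F _ x) = algebraMap L _ (algebraMap F L x))
    (hφv : ∀ x, Valued.v (φ x) = (Valued.v x) ^ S5.ram F W) :
    ∃ h : W.adicCompletion L ≃+* W.adicCompletion L, (∀ m, Valued.v (h m) = Valued.v m) ∧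
      (∀ x : L, h (algebraMap L _ x) = algebraMap L _ (g x)) ∧ ∀ y, h (φ y) = φ y := by
  have hval : ∀ x, W.valuation L (g x) = W.valuation L x := by
    intro x
    have h1 := gpl_val g W x
    rw [hg] at h1
    exact h1
  have hval' : ∀ x, W.valuation L (g.symm x) = W.valuation L x := by
    intro x
    rw [← hval (g.symm x), AlgEquiv.apply_symm_apply]
  obtain ⟨h, hc, h1, h2⟩ := lob_ext W g.toRingEquiv hval
  obtain ⟨h', hc', h1', h2'⟩ := lob_ext W g.symm.toRingEquiv hval'
  have e1 : ∀ m, h (h' m) = m := by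
    refine lob_eq W (hc.comp hc') continuous_id fun x => ?_
    change h (h' (algebraMap L _ x)) = algebraMap L _ x
    rw [h1', h1]
    exact congrArg _ (g.apply_symm_apply x)
  have e2 : ∀ m, h' (h m) = m := by
    refine lob_eq W (hc'.comp hc) continuous_id fun x => ?_
    change h' (h (algebraMap L _ x)) = algebraMap L _ x
    rw [h1, h1']
    exact congrArg _ (g.symm_apply_apply x)
  have hφc : Continuous φ := by
    refine lob_cont φ fun a ha => ?_
    obtain ⟨b, hb⟩ := HeightOneSpectrum.valuedAdicCompletion_surjective F (S5.below F W)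
      (min 1 (Valued.v a))
    have ha' : (0 : WithZero (Multiplicative ℤ)) < Valued.v a :=
      zero_lt_iff.2 ((Valuation.ne_zero_iff _).2 ha)
    refine ⟨b, ?_, fun x hx => ?_⟩
    · rintro rfl
      rw [_root_.map_zero] at hb
      have h3 : (0 : WithZero (Multiplicative ℤ)) < min 1 (Valued.v a) :=
        lt_min zero_lt_one ha'
      rw [← hb] at h3
      exact lt_irrefl _ h3
    · rw [hb] at hx
      have h3 : Valued.v x ≤ 1 := (hx.trans_le (min_le_left _ _)).le
      rw [hφv]
      exact (pow_le_of_le_one zero_le h3 (S5.ram_pos F W).ne').trans_lt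
        (hx.trans_le (min_le_right _ _))
  refine ⟨{ h with
    invFun := h'
    left_inv := e2
    right_inv := e1 }, h2, h1, ?_⟩
  refine lob_eq (S5.below F W) (hc.comp hφc) hφc fun x => ?_
  change h (φ (algebraMap F _ x)) = φ (algebraMap F _ x)
  rw [hφ, h1]
  exact congrArg _ (g.commutes x)

private theorem loc_inj {X X' : Type*} [Field X] [Field X'] (f : X →+* X') {x y : X}
    (h : f x = f y) : x = y := f.injective h

/-- the general form of `locSol_of_triv` -/
private theorem loc_gen {F : Type u} [Field F] [NumberField F] [Algebra K F]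
    (C : S9.Gal F → S9.Pts (E F) (AlgebraicClosure F))
    (L : IntermediateField F (AlgebraicClosure F)) [NumberField L] [IsGalois F L]
    (Fv : Type u) [Field Fv] [Algebra F Fv] (hC : C ∈ S9.trivOver (E F) Fv)
    (hL : ∀ τ : S9.Gal F, (∀ x ∈ L, τ x = x) → C τ = 0) (κ : Gal(L/F) → Pt L)
    (hκ : ∀ τ : S9.Gal F, pm (L.val.restrictScalars K) (κ (τ.restrictNormal L)) =
      tr F (AlgebraicClosure F) (C τ))
    (M : Type u) [Field M] [Algebra K M] [Algebra F M] [Algebra L M] [Algebra Fv M]
    [IsScalarTower F Fv M] [IsScalarTower F L M] [IsScalarTower K L M] [IsScalarTower K F M] :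
    ∃ P₁ : Pt M, ∀ (g : Gal(L/F)) (h : M ≃+* M)
      (_ : ∀ x : L, h (algebraMap L M x) = algebraMap L M (g x))
      (_ : ∀ y : Fv, h (algebraMap Fv M y) = algebraMap Fv M y) (f : M →ₐ[K] M)
      (_ : ∀ m, f m = h m), pm f P₁ - P₁ = pm (IsScalarTower.toAlgHom K L M) (κ g) := by
  have hM0 : CharZero M := charZero_of_injective_algebraMap (algebraMap F M).injective
  have hFv0 : CharZero Fv := charZero_of_injective_algebraMap (algebraMap F Fv).injective
  have halg : Algebra.IsAlgebraic L (AlgebraicClosure F) :=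
    Algebra.IsAlgebraic.tower_top (K := F) L
  let ι₀ : AlgebraicClosure F →ₐ[L] AlgebraicClosure M := IsAlgClosed.lift
  let ι : AlgebraicClosure F →ₐ[F] AlgebraicClosure M := ι₀.restrictScalars F
  have hι : ∀ x : L, ι (x : AlgebraicClosure F) =
      algebraMap M (AlgebraicClosure M) (algebraMap L M x) := by
    intro x
    have h1 : ι₀ (algebraMap L (AlgebraicClosure F) x) =
      algebraMap L (AlgebraicClosure M) x := ι₀.commutes x
    rw [IsScalarTower.algebraMap_apply L M (AlgebraicClosure M)] at h1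
    exact h1
  obtain ⟨P, hP⟩ := transferG (k := F) (L₀ := Fv) (Ω := AlgebraicClosure M) (E F) C hC ι
  have hfix : ∀ σ : S9.Gal M, Affine.Point.map
      ((σ : AlgebraicClosure M →ₐ[M] _).restrictScalars F) P = P := by
    intro σ
    obtain ⟨τ, hτ⟩ := S9.exists_comp ι
      (((σ : AlgebraicClosure M →ₐ[M] AlgebraicClosure M).restrictScalars F).comp ι)
    have h1 : ∀ x, ι (τ x) = (σ.restrictScalars Fv) (ι x) := fun x => (hτ x).symm
    have h2 : C τ = 0 := by
      apply hL
      intro x hx
      apply loc_inj (ι : AlgebraicClosure F →+* AlgebraicClosure M)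
      have h3 : ι (τ x) = σ (ι x) := h1 x
      have h4 := hι ⟨x, hx⟩
      change ι x = _ at h4
      change ι (τ x) = ι x
      rw [h3, h4]
      exact σ.commutes _
    have h5 := hP _ τ h1
    rw [h2, _root_.map_zero] at h5
    exact (sub_eq_zero.1 h5.symm)
  obtain ⟨Q, hQ⟩ := S9.fixed_pt (E F) P hfix
  refine ⟨tr F M Q, ?_⟩
  intro g h hg hF f hf
  let σr : AlgebraicClosure M ≃+* AlgebraicClosure M :=
    IsAlgClosure.equivOfEquiv (AlgebraicClosure M) (AlgebraicClosure M) h
  have hσr : ∀ m : M, σr (algebraMap M (AlgebraicClosure M) m) =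
      algebraMap M (AlgebraicClosure M) (h m) := fun m =>
    IsAlgClosure.equivOfEquiv_algebraMap (AlgebraicClosure M) (AlgebraicClosure M) h m
  have hσF : ∀ y : Fv, σr (algebraMap Fv (AlgebraicClosure M) y) =
      algebraMap Fv (AlgebraicClosure M) y := by
    intro y
    rw [IsScalarTower.algebraMap_apply Fv M (AlgebraicClosure M), hσr, hF]
  let σ : AlgebraicClosure M ≃ₐ[Fv] AlgebraicClosure M := AlgEquiv.ofRingEquiv (f := σr) hσF
  have hσ : ∀ x, σ x = σr x := fun _ => rfl
  obtain ⟨τ, hτ⟩ := S9.exists_comp ι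
    (((σ : AlgebraicClosure M →ₐ[Fv] AlgebraicClosure M).restrictScalars F).comp ι)
  have h1 : ∀ x, ι (τ x) = σ (ι x) := fun x => (hτ x).symm
  have h2 : τ.restrictNormal L = g := by
    apply AlgEquiv.ext
    intro x
    apply loc_inj (algebraMap L (AlgebraicClosure F))
    rw [AlgEquiv.restrictNormal_commutes]
    apply loc_inj (ι : AlgebraicClosure F →+* AlgebraicClosure M)
    have h3 : ι (τ (x : AlgebraicClosure F)) = σ (ι x) := h1 x
    have h4 : ι (((g x : L) : AlgebraicClosure F)) =
      algebraMap M (AlgebraicClosure M) (algebraMap L M (g x)) := hι (g x)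
    have h5 : σ (ι (x : AlgebraicClosure F)) =
        algebraMap M (AlgebraicClosure M) (algebraMap L M (g x)) := by
      rw [hι, hσ, hσr, hg]
    exact h3.trans (h5.trans h4.symm)
  have h6 := hP σ τ h1
  have h7 := congrArg (tr F (AlgebraicClosure M)) h6
  rw [tr_map, _root_.map_sub, tr_map, ← hκ τ, h2, ← hQ] at h7
  have h8 : tr F (AlgebraicClosure M) (S9.up (E F) M (AlgebraicClosure M) Q) =
      pm ((IsScalarTower.toAlgHom F M (AlgebraicClosure M)).restrictScalars K) (tr F M Q) :=
    tr_map _ Q
  rw [h8] at h7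
  apply pm_inj ((IsScalarTower.toAlgHom F M (AlgebraicClosure M)).restrictScalars K)
  rw [_root_.map_sub]
  have h9 : pm ((IsScalarTower.toAlgHom F M (AlgebraicClosure M)).restrictScalars K)
      (pm f (tr F M Q)) = pm (((σ : AlgebraicClosure M →ₐ[Fv] AlgebraicClosure M).restrictScalars
        F).restrictScalars K)
      (pm ((IsScalarTower.toAlgHom F M (AlgebraicClosure M)).restrictScalars K) (tr F M Q)) := by
    rw [pm, pm, pm, Affine.Point.map_map, Affine.Point.map_map]
    congr 1
    apply congrArg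
    apply AlgHom.ext
    intro m
    change algebraMap M (AlgebraicClosure M) (f m) = σr (algebraMap M (AlgebraicClosure M) m)
    rw [hσr, hf]
  have h10 : pm ((IsScalarTower.toAlgHom F M (AlgebraicClosure M)).restrictScalars K)
      (pm (IsScalarTower.toAlgHom K L M) (κ g)) =
      pm (ι.restrictScalars K) (pm (L.val.restrictScalars K) (κ g)) := by
    rw [pm, pm, pm, pm, Affine.Point.map_map, Affine.Point.map_map]
    congr 1
    apply congrArg
    apply AlgHom.ext
    intro x
    exact (hι x).symm
  rw [h9, h10]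
  exact h7.symm

theorem locSol_of_triv {F : Type u} [Field F] [NumberField F] [Algebra K F]
    (C : S9.Gal F → S9.Pts (E F) (AlgebraicClosure F))
    (L : IntermediateField F (AlgebraicClosure F)) [NumberField L] [IsGalois F L]
    (hC : ∀ v : HeightOneSpectrum (𝓞 F), C ∈ S9.trivOver (E F) (v.adicCompletion F))
    (hL : ∀ τ : S9.Gal F, (∀ x ∈ L, τ x = x) → C τ = 0) (κ : Gal(L/F) → Pt L)
    (hκ : ∀ τ : S9.Gal F, pm (L.val.restrictScalars K) (κ (τ.restrictNormal L)) =
      tr F (AlgebraicClosure F) (C τ)) (W : HeightOneSpectrum (𝓞 L)) : LocSol κ W := by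
  obtain ⟨φ, hφ, hφv⟩ := S9.exists_compMap F W
  let iM : Algebra ((S5.below F W).adicCompletion F) (W.adicCompletion L) := φ.toAlgebra
  let iF : Algebra F (W.adicCompletion L) :=
    ((algebraMap L (W.adicCompletion L)).comp (algebraMap F L)).toAlgebra
  let iK : Algebra K (W.adicCompletion L) :=
    ((algebraMap L (W.adicCompletion L)).comp (algebraMap K L)).toAlgebra
  have t1 : IsScalarTower F ((S5.below F W).adicCompletion F) (W.adicCompletion L) :=
    IsScalarTower.of_algebraMap_eq fun x => (hφ x).symm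
  have t2 : IsScalarTower F L (W.adicCompletion L) := IsScalarTower.of_algebraMap_eq fun x => rfl
  have t3 : IsScalarTower K L (W.adicCompletion L) := IsScalarTower.of_algebraMap_eq fun x => rfl
  have t4 : IsScalarTower K F (W.adicCompletion L) := by
    apply IsScalarTower.of_algebraMap_eq
    intro x
    change algebraMap L (W.adicCompletion L) (algebraMap K L x) =
      algebraMap L (W.adicCompletion L) (algebraMap F L (algebraMap K F x))
    rw [← IsScalarTower.algebraMap_apply K F L]
  obtain ⟨P₁, hP₁⟩ := loc_gen C L ((S5.below F W).adicCompletion F) (hC _) hL κ hκ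
    (W.adicCompletion L)
  refine ⟨W.adicCompletion L, inferInstance, iK, inferInstance, t3,
    fun a b => Classical.propDecidable (a = b), Valued.v, P₁, ?_, ?_, ?_⟩
  · intro x
    exact HeightOneSpectrum.valuedAdicCompletion_eq_valuation' W x
  · intro m n
    have h1 : {y : W.adicCompletion L | Valued.v (m - y) ≤
        (WithZero.exp (-(n : ℤ)) : WithZero (Multiplicative ℤ))} ∈ nhds m := by
      obtain ⟨π, hπ⟩ := W.valuation_exists_uniformizer L
      have hz : (Valued.v (algebraMap L (W.adicCompletion L) (π ^ n)) :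
          WithZero (Multiplicative ℤ)) = WithZero.exp (-(n : ℤ)) := by
        have h0 : (Valued.v (algebraMap L (W.adicCompletion L) (π ^ n)) :
          WithZero (Multiplicative ℤ)) = W.valuation L (π ^ n) :=
          HeightOneSpectrum.valuedAdicCompletion_eq_valuation' W _
        rw [h0, map_pow, hπ, ← WithZero.exp_nsmul]
        simp
      rw [Valued.mem_nhds]
      have hz0 : Valued.v.restrict (algebraMap L (W.adicCompletion L) (π ^ n)) ≠ 0 := by
        intro h0
        have h2 : (Valued.v (algebraMap L (W.adicCompletion L) (π ^ n)) :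
          WithZero (Multiplicative ℤ)) ≠ 0 := by
          rw [hz]
          exact WithZero.exp_ne_zero
        exact h2 (by simpa using h0)
      refine ⟨Units.mk0 _ hz0, ?_⟩
      intro y hy
      have h2 := (Valuation.restrict_lt_iff _).1 hy
      rw [hz] at h2
      change Valued.v (m - y) ≤ _
      rw [Valuation.map_sub_swap]
      exact h2.le
    obtain ⟨x, hx⟩ := (HeightOneSpectrum.denseRange_algebraMap L W).mem_nhds h1
    exact ⟨x, hx⟩
  · intro g hg
    obtain ⟨h, h1, h2, h3⟩ := exists_ghat W g hg φ hφ hφv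
    let f : W.adicCompletion L →ₐ[K] W.adicCompletion L :=
      { (h : W.adicCompletion L →+* W.adicCompletion L) with
        commutes' := fun x => by
          change h (algebraMap L (W.adicCompletion L) (algebraMap K L x)) =
            algebraMap L (W.adicCompletion L) (algebraMap K L x)
          rw [h2, IsScalarTower.algebraMap_apply K F L, g.commutes] }
    exact ⟨f, h1, h2, hP₁ g h h2 h3 f fun m => rfl⟩

end Pool.Agent.Lib.MP_1a91b9_ntT.DH
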