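import Pool.Agent.Lib.MP_1a91b9_ntT.DH.Vv
import Pool.Agent.Lib.MP_1a91b9_ntT.DH.Loc
import Pool.Agent.Lib.MP_1a91b9_ntT.DH.Fs
import Pool.Agent.Lib.MP_1a91b9_ntT.DH.Dv

/-!
# DH: the `ℓ`-part of the Tate-Shafarevich group is trivial
-/

set_option autoImplicit false

namespace Pool.Agent.Lib.MP_1a91b9_ntT.DH

open NumberField IsDedekindDomain WeierstrassCurve DB DX
open scoped Classical

universe u

section
variable {ϖ : 𝓞 K} {ℓ q : ℕ} (h : PD ϖ ℓ q) {F : Type u} [Field F] [NumberField F] [Algebra K F]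
  (hun : ∀ v : HeightOneSpectrum (𝓞 F), v.valuation F (ℓ : F) < 1 → od v (ℓ : F) = 1)
include h hun

/-- the locally trivial cocycles killed by `cj ϖ` are coboundaries -/
theorem sel_top (hV : VT ϖ ℓ F) (h3 : DT ϖ F) (hc : DTb (cj ϖ) ϖ F)
    (C : S9.Gal F → S9.Pts (E F) (AlgebraicClosure F)) (hC : C ∈ S9.shaCoc (E F))
    (hC2 : ∀ σ, smF F (AlgebraicClosure F) (cj ϖ) (C σ) = 0) : C ∈ S9.cob (E F) := by
  obtain ⟨N, iN1, iN2, iN3, iN4, iN5, iN6, iN7, P₀, hP₀⟩ := exists_full h F hun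
  obtain ⟨N₂, iM1, iM2, iM3, iM4, iM5, iM6, iM7, P₂, hP₂⟩ := exists_full (pd_cj h) F hun
  have e1 : iN6 = fun a b => Classical.propDecidable (a = b) := Subsingleton.elim _ _
  have e2 : iM6 = fun a b => Classical.propDecidable (a = b) := Subsingleton.elim _ _
  subst e1
  subst e2
  let C' : S9.Gal F → Pt (AlgebraicClosure F) := fun σ => tr F (AlgebraicClosure F) (C σ)
  have hcoc : C ∈ S9.coc (E F) := hC.1.1
  have hC0' : IsLocallyConstant C' := hcoc.1.comp _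
  have hC1' : ∀ σ τ : S9.Gal F, C' (σ * τ) = C' σ + ga σ (C' τ) := by
    intro σ τ
    show tr F _ (C (σ * τ)) = tr F _ (C σ) + ga σ (tr F _ (C τ))
    rw [hcoc.2 σ τ, map_add]
    congr 1
    exact tr_map _ _
  have hC2' : ∀ σ, sm (AlgebraicClosure F) (cj ϖ) (C' σ) = 0 := by
    intro σ
    show sm _ (cj ϖ) (tr F _ (C σ)) = 0
    rw [← tr_smF, hC2, map_zero]
  obtain ⟨L, iL1, iL2, iL3, iL4, iL5, iL6, iL7, iL8, ζ, κ, D, hL, hκ⟩ :=
    exists_TC h hP₀ hP₂ C' hC0' hC1' hC2'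
  have hCv : ∀ v : HeightOneSpectrum (𝓞 F), C ∈ S9.trivOver (E F) (v.adicCompletion F) := by
    intro v
    exact AddSubgroup.mem_iInf.1 hC.1.2 v
  have hL' : ∀ τ : S9.Gal F, (∀ x ∈ L, τ x = x) → C τ = 0 := by
    intro τ hτ
    have := hL τ hτ
    exact (tr F (AlgebraicClosure F)).map_eq_zero_iff.1 this
  have hloc : ∀ W : HeightOneSpectrum (𝓞 L), LocSol κ W :=
    fun W => locSol_of_triv C L hCv hL' κ hκ W
  obtain ⟨S, hS⟩ := D.cob hV hun h3 hc hloc
  refine ⟨(tr F (AlgebraicClosure F)).symm (pm (L.val.restrictScalars K) S), fun τ => ?_⟩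
  apply (tr F (AlgebraicClosure F)).injective
  rw [map_sub, tr_map, AddEquiv.apply_symm_apply]
  have h1 := hκ τ
  rw [hS, map_sub] at h1
  have h2 : pm (L.val.restrictScalars K) (ga (τ.restrictNormal L) S) =
      pm ((τ : AlgebraicClosure F →ₐ[F] AlgebraicClosure F).restrictScalars K)
        (pm (L.val.restrictScalars K) S) := by
    rcases cases_pt S with rfl | ⟨x, y, hxy, rfl⟩
    · simp only [map_zero]
    · obtain ⟨a1, b1⟩ := pm_mk (((τ.restrictNormal L : Gal(L/F)) : L →ₐ[F] L).restrictScalars K)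
        x y hxy
      obtain ⟨a2, b2⟩ := pm_mk (L.val.restrictScalars K) x y hxy
      rw [ga, b1, b2]
      obtain ⟨a3, b3⟩ := pm_mk (L.val.restrictScalars K) _ _ a1
      obtain ⟨a4, b4⟩ := pm_mk
        ((τ : AlgebraicClosure F →ₐ[F] AlgebraicClosure F).restrictScalars K) _ _ a2
      rw [b3, b4, mk_inj]
      exact ⟨AlgEquiv.restrictNormal_commutes τ L x, AlgEquiv.restrictNormal_commutes τ L y⟩
  rw [h2] at h1
  exact h1.symm

variable (hV : VT ϖ ℓ F) (hV' : VT (cj ϖ) ℓ F) (h3 : DT ϖ F) (h3' : DT (cj ϖ) F)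
  (hc : DTb (cj ϖ) ϖ F) (hc' : DTb ϖ (cj ϖ) F)
include hV hV' h3 h3' hc hc'

/-- the locally trivial cocycles which are killed by `ℓ` modulo coboundaries are coboundaries -/
theorem ell_class (C : S9.Gal F → S9.Pts (E F) (AlgebraicClosure F)) (hC : C ∈ S9.shaCoc (E F))
    (hl : ℓ • C ∈ S9.cob (E F)) : C ∈ S9.cob (E F) := by
  have hq : (fun σ => smF F (AlgebraicClosure F) (q : 𝓞 K) (C σ)) ∈ S9.cob (E F) := by
    have h1 : (fun σ => smF F (AlgebraicClosure F) (q : 𝓞 K) (C σ)) = q • C := by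
      funext σ
      rw [smF_nat]
      rfl
    rw [h1]
    rcases h.alt with e | e
    · rw [e]
      exact hl
    · rw [e, pow_two, mul_nsmul]
      exact AddSubgroup.nsmul_mem _ hl ℓ
  have hcj := pd_cj h
  have hA : ∀ C ∈ S9.shaCoc (E F),
      (∀ σ, smF F (AlgebraicClosure F) (cj ϖ) (C σ) = 0) → C ∈ S9.cob (E F) :=
    fun C hC hC2 => sel_top h hun hV h3 hc C hC hC2
  have hB : ∀ C ∈ S9.shaCoc (E F),
      (∀ σ, smF F (AlgebraicClosure F) ϖ (C σ) = 0) → C ∈ S9.cob (E F) := by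
    intro C hC hC2
    refine sel_top hcj hun hV' h3' (by rw [cj_cj]; exact hc') C hC (fun σ => ?_)
    rw [cj_cj]
    exact hC2 σ
  refine dev h.prime.ne_zero hB hC ?_
  refine dev hcj.prime.ne_zero hA (smF_sha ϖ hC) ?_
  have h2 : (fun σ => smF F (AlgebraicClosure F) (cj ϖ) (smF F (AlgebraicClosure F) ϖ (C σ))) =
      fun σ => smF F (AlgebraicClosure F) (q : 𝓞 K) (C σ) := by
    funext σ
    rw [← smF_mul, mul_comm, pd_mul_cj h]
  rw [h2]
  exact hq

/-- the classes killed by `ℓ` are trivial -/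
theorem sha_zero (x : S9.Sha (E F)) (hx : ℓ • x = 0) : x = 0 := by
  have key : ∀ y : S9.shaCoc (E F) ⧸ (S9.cob (E F)).addSubgroupOf (S9.shaCoc (E F)),
      ℓ • y = 0 → y = 0 := by
    intro y hy
    obtain ⟨⟨C, hC⟩, rfl⟩ := QuotientAddGroup.mk_surjective y
    rw [← QuotientAddGroup.mk_nsmul, QuotientAddGroup.eq_zero_iff,
      AddSubgroup.mem_addSubgroupOf] at hy
    rw [QuotientAddGroup.eq_zero_iff, AddSubgroup.mem_addSubgroupOf]
    exact ell_class h hun hV hV' h3 h3' hc hc' C hC hy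
  exact key x hx

theorem sha_pow_zero (n : ℕ) (x : S9.Sha (E F)) (hx : ℓ ^ n • x = 0) : x = 0 := by
  induction n generalizing x with
  | zero => simpa using hx
  | succ n ih =>
    refine sha_zero h hun hV hV' h3 h3' hc hc' x (ih _ ?_)
    rw [← mul_nsmul', ← pow_succ]
    exact hx

/-- the `ℓ`-primary part of the Tate-Shafarevich group is trivial -/
theorem sha_primary [Fact ℓ.Prime] :
    Subsingleton (AddCommGroup.primaryComponent (S9.Sha (E F)) ℓ) := by
  have h1 : ∀ x : AddCommGroup.primaryComponent (S9.Sha (E F)) ℓ, x = 0 := by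
    rintro ⟨x, n, hn⟩
    exact Subtype.ext (sha_pow_zero h hun hV hV' h3 h3' hc hc' n x hn)
  exact ⟨fun x y => (h1 x).trans (h1 y).symm⟩

end

end Pool.Agent.Lib.MP_1a91b9_ntT.DH
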