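import Pool.Agent.Lib.MP_1a91b9_ntT.DH.Main
import Pool.Agent.Lib.MP_1a91b9_ntT.DS.Tower
import Pool.Agent.Lib.MP_1a91b9_ntT.DB.Base
import Pool.Agent.Lib.MP_1a91b9_ntT.DX.DecB
import Pool.Agent.Lib.MP_1a91b9_ntT.DX.ExPD

/-!
# DH: the `ℓ`-part of the Tate-Shafarevich group over the towers of Theorem D
-/

set_option autoImplicit false

namespace Pool.Agent.Lib.MP_1a91b9_ntT.DH

open NumberField IsDedekindDomain WeierstrassCurve DB DX DS
open scoped Classical

universe u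

section
variable {ℓ : ℕ} (hℓ : ℓ.Prime) (h5 : 5 ≤ ℓ) (F : Type u) [Field F] [NumberField F] [Algebra K F]
  (h : TowerL ℓ F)
include hℓ h5 h

/-- Over the towers of degree `ℓ` the classes of `ℓ`-power order are trivial. -/
theorem sha_tower (n : ℕ) (x : S9.Sha (E F)) (hx : ℓ ^ n • x = 0) : x = 0 := by
  obtain ⟨ϖ, q, hp⟩ := exists_pd hℓ h5
  have hp' := pd_cj hp
  obtain ⟨h1, h2, h3⟩ := tower_alg hp (fun k _ _ _ hk => base_VT hp k hk)
    (fun k _ _ _ hk => base_DT hp k hk) F h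
  obtain ⟨h1', h2', -⟩ := tower_alg hp' (fun k _ _ _ hk => base_VT hp' k hk)
    (fun k _ _ _ hk => base_DT hp' k hk) F h
  have h4 := tower_DTb hp (cj ϖ) (fun k _ _ _ hk => dtb_cj_base hp k hk (unr_base hℓ h5 k hk)) F h
  have h4' : DTb ϖ (cj ϖ) F := by
    refine tower_DTb hp' ϖ (fun k _ _ _ hk => ?_) F h
    have e := dtb_cj_base hp' k hk (unr_base hℓ h5 k hk)
    rwa [cj_cj] at e
  exact sha_pow_zero hp h3 h1 h1' h2 h2' h4 h4' n x hx

/-- Over the towers of degree `ℓ` the `ℓ`-primary part of the Tate-Shafarevich group is trivial. -/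
theorem sha_tower_primary [Fact ℓ.Prime] :
    Subsingleton (AddCommGroup.primaryComponent (S9.Sha (E F)) ℓ) := by
  have h1 : ∀ x : AddCommGroup.primaryComponent (S9.Sha (E F)) ℓ, x = 0 := by
    rintro ⟨x, n, hn⟩
    exact Subtype.ext (sha_tower hℓ h5 F h n x hn)
  exact ⟨fun x y => (h1 x).trans (h1 y).symm⟩

end

end Pool.Agent.Lib.MP_1a91b9_ntT.DH
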