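import Pool.Agent.Lib.MP_1a91b9_ntT.DH.Defs
import Pool.Agent.Lib.MP_1a91b9_ntT.S9.MB

/-!
# DH: points in the sense of S9 and of DB, the action of `𝓞 K` on the points

`S9.Pts (E F) X` is the group of points of `(E F).baseChange X`, `DB.Pt X` that of `(E K).baseChange X`.
-/

set_option autoImplicit false

namespace Pool.Agent.Lib.MP_1a91b9_ntT.DH

open NumberField IsDedekindDomain WeierstrassCurve DB DX
open scoped Classical

noncomputable section

theorem bc_eq (F X : Type*) [Field F] [Field X] [Algebra F X] [Algebra K X] :
    Affine.baseChange (E F) X = Affine.baseChange (E K) X := by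
  simp [E, WeierstrassCurve.map, WeierstrassCurve.baseChange]

/-- equal curves have the same points -/
def castP {X : Type*} [Field X] {W W' : Affine X} (h : W = W') : W.Point ≃+ W'.Point := by
  subst h
  exact AddEquiv.refl _

theorem castP_some {X : Type*} [Field X] {W W' : Affine X} (h : W = W') {x y : X}
    (hn : W.Nonsingular x y) : castP h (.some x y hn) = .some x y (h ▸ hn) := by
  subst h
  rfl

/-- the points of `E F` over `X` as points of `E K` over `X` -/
def tr (F X : Type*) [Field F] [Field X] [Algebra F X] [Algebra K X] :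
    S9.Pts (E F) X ≃+ Pt X := castP (bc_eq F X)

section
variable {F X X' : Type*} [Field F] [Algebra K F] [Field X] [Algebra F X] [Algebra K X]
  [IsScalarTower K F X] [Field X'] [Algebra F X'] [Algebra K X'] [IsScalarTower K F X']

theorem tr_map (f : X →ₐ[F] X') (P : S9.Pts (E F) X) :
    tr F X' (Affine.Point.map f P) = pm (f.restrictScalars K) (tr F X P) := by
  match P with
  | 0 =>
    rw [map_zero, map_zero, map_zero, map_zero]
  | .some x y h =>
    rw [Affine.Point.map_some, tr, tr, castP_some, castP_some]
    rfl

theorem tr_symm_map (f : X →ₐ[F] X') (P : Pt X) :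
    Affine.Point.map f ((tr F X).symm P) = (tr F X').symm (pm (f.restrictScalars K) P) := by
  apply (tr F X').injective
  rw [tr_map, AddEquiv.apply_symm_apply, AddEquiv.apply_symm_apply]

end

/-- the action of `𝓞 K` on the points of `E F` over `X` -/
def smF (F X : Type*) [Field F] [Algebra K F] [Field X] [Algebra F X] (a : 𝓞 K) :
    S9.Pts (E F) X →+ S9.Pts (E F) X :=
  letI : Algebra K X := ((algebraMap F X).comp (algebraMap K F)).toAlgebra
  (tr F X).symm.toAddMonoidHom.comp
    ((sm X a : Pt X →+ Pt X).comp (tr F X).toAddMonoidHom)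

section
variable {F X X' : Type*} [Field F] [Algebra K F] [Field X] [Algebra F X] [Field X']
  [Algebra F X']

theorem tr_smF [i : Algebra K X] [IsScalarTower K F X] (a : 𝓞 K) (P : S9.Pts (E F) X) :
    tr F X (smF F X a P) = sm X a (tr F X P) := by
  have e : i = ((algebraMap F X).comp (algebraMap K F)).toAlgebra := by
    apply Algebra.algebra_ext
    intro r
    exact IsScalarTower.algebraMap_apply K F X r
  subst e
  let _ : Algebra K X := ((algebraMap F X).comp (algebraMap K F)).toAlgebra
  exact (tr F X).apply_symm_apply _

theorem smF_map (f : X →ₐ[F] X') (a : 𝓞 K) (P : S9.Pts (E F) X) :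
    Affine.Point.map f (smF F X a P) = smF F X' a (Affine.Point.map f P) := by
  let _ : Algebra K X := ((algebraMap F X).comp (algebraMap K F)).toAlgebra
  let _ : Algebra K X' := ((algebraMap F X').comp (algebraMap K F)).toAlgebra
  have : IsScalarTower K F X := IsScalarTower.of_algebraMap_eq fun _ => rfl
  have : IsScalarTower K F X' := IsScalarTower.of_algebraMap_eq fun _ => rfl
  apply (tr F X').injective
  rw [tr_smF, tr_map, tr_map, tr_smF, pm_sm]

theorem smF_mul (a b : 𝓞 K) (P : S9.Pts (E F) X) :
    smF F X (a * b) P = smF F X a (smF F X b P) := by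
  let _ : Algebra K X := ((algebraMap F X).comp (algebraMap K F)).toAlgebra
  have : IsScalarTower K F X := IsScalarTower.of_algebraMap_eq fun _ => rfl
  apply (tr F X).injective
  rw [tr_smF, tr_smF, tr_smF, map_mul]
  rfl

theorem smF_nat (n : ℕ) (P : S9.Pts (E F) X) : smF F X (n : 𝓞 K) P = n • P := by
  let _ : Algebra K X := ((algebraMap F X).comp (algebraMap K F)).toAlgebra
  have : IsScalarTower K F X := IsScalarTower.of_algebraMap_eq fun _ => rfl
  apply (tr F X).injective
  rw [tr_smF, sm_nat, map_nsmul]

end

end

end Pool.Agent.Lib.MP_1a91b9_ntT.DH
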