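import Pool.Agent.Lib.MP_1a91b9_ntT.DH.Kum
import Pool.Agent.Lib.MP_1a91b9_ntT.DX.Unr

/-!
# DH: places prime to `3` and to `cj ϖ` are unramified (adapted from DX/Unr)

PROOF (complete; stream DH of helper55, the `ℓ`-part of the Tate-Shafarevich group). Jobs UhA (`red_M`,
`TC.inert`), UhB (`TC.unram`). NEVER use the tactics `convert` or `congr!` (lean-grade refuses).

UhA. `red_M`: as `ura_ker` in DX/Unr: if `P` is in the kernel so is `pm f P` (`xc_pm`, `hf`) and `ker_sub`; if not then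
`pm f P` is not in the kernel, the coordinates of `P` are integral (`not_ker`) and congruent to those of `pm f P` (`xc_pm`,
`yc_pm`, `hc`), `red_inj`.
`TC.inert`: read `TD.inert` in DX/Unr and copy its private lemmas (`ura_gpl`, `ura_val`, `ura_cong`, `ura_ker`,
`ura_zero`). (1) `ga (toF F σ) (up L P₂) = up L P₂` as there. (2) `κ (toF F σ) = 0`: `hloc` gives `M`, `v`, `P`, and
(`gpl (toF F σ) W = W` by `ura_gpl`) `f` for `g = toF F σ`. For `m : M` with `v m ≤ 1`: `x : L` with `v (m - x) ≤ exp (-1) < 1`;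
`v (f m - m)`: `f m - m = f (m - x) + (σ x - x) - (m - x)`, `W x ≤ 1` so `W (σ x - x) < 1` (`ura_cong`): it is `< 1`.
`v 3 = W 3 = 1`. `red_M`: `pm f P - P = pm _ (κ g)` is in the kernel at `v`, so `κ g` is in the kernel at `W` (`xc_pm`,
`pm_inj`, `hv`), and it is killed by `cj ϖ` (`D.tor`): it is zero by `ura_zero`. (3) `D.gen` with `D.chi_fix`
as in `TD.inert`.
UhB `TC.unram`: copy of `TD.unram` in DX/Unr (the inertia group of `W` in `Gal(L/N)` is trivial by `TC.inert`).
-/

set_option autoImplicit false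

namespace Pool.Agent.Lib.MP_1a91b9_ntT.DH

open NumberField IsDedekindDomain WeierstrassCurve DB DX

universe u

theorem red_M {M : Type u} [Field M] [Algebra K M] [DecidableEq M] {Γ : Type*}
    [LinearOrderedCommGroupWithZero Γ] (v : Valuation M Γ) (h3 : v (3 : M) = 1) (f : M →ₐ[K] M)
    (hf : ∀ m, v (f m) = v m) (hc : ∀ m, v m ≤ 1 → v (f m - m) < 1) (P : Pt M) :
    Ker v (pm f P - P) := by
  by_cases hT : Ker v P
  · have h1 : Ker v (pm f P) := by
      rcases hT with rfl | h
      · rw [map_zero]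
        exact Or.inl rfl
      · right
        rwa [xc_pm, hf]
    exact ker_sub v h1 hT
  · obtain ⟨hT0, hx, hy⟩ := not_ker v hT
    have h1 : ¬ Ker v (pm f P) := by
      rintro (h | h)
      · exact hT0 (pm_inj f (h.trans (map_zero _).symm))
      · rw [xc_pm, hf] at h
        exact absurd h (not_lt.2 hx)
    refine red_inj v h3 h1 hT ?_ ?_
    · rw [xc_pm]
      exact hc _ hx
    · rw [yc_pm]
      exact hc _ hy

section
variable {k L : Type u} [Field k] [NumberField k] [Field L] [NumberField L] [Algebra k L]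

/-- an inertia automorphism fixes the place -/
private theorem uha_gpl (W : HeightOneSpectrum (𝓞 L)) (σ : Gal(L/k))
    (hσ : ∀ x : 𝓞 L, σ • x - x ∈ W.asIdeal) : gpl σ W = W := by
  apply HeightOneSpectrum.ext
  ext x
  have h1 : x ∈ (gpl σ W).asIdeal ↔ σ⁻¹ • x ∈ W.asIdeal := Iff.rfl
  have h2 : x - σ⁻¹ • x ∈ W.asIdeal := by
    have h := hσ (σ⁻¹ • x)
    rwa [smul_inv_smul] at h
  rw [h1]
  constructor
  · intro h
    have := W.asIdeal.add_mem h2 h
    rwa [sub_add_cancel] at this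
  · intro h
    have := W.asIdeal.sub_mem h h2
    rwa [sub_sub_cancel] at this

private theorem uha_val (W : HeightOneSpectrum (𝓞 L)) (σ : Gal(L/k))
    (hσ : ∀ x : 𝓞 L, σ • x - x ∈ W.asIdeal) (a : L) :
    W.valuation L (σ a) = W.valuation L a := by
  have h := gpl_val σ W a
  rwa [uha_gpl W σ hσ] at h

private theorem uha_exp : (WithZero.exp (-((1 : ℕ) : ℤ)) : WithZero (Multiplicative ℤ)) < 1 := by
  rw [← WithZero.exp_zero, WithZero.exp_lt_exp]
  norm_num

private theorem uha_cong (W : HeightOneSpectrum (𝓞 L)) (σ : Gal(L/k))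
    (hσ : ∀ x : 𝓞 L, σ • x - x ∈ W.asIdeal) {a : L} (ha : W.valuation L a ≤ 1) :
    W.valuation L (σ a - a) < 1 := by
  obtain ⟨x, hx⟩ := exists_val_lt_of_int W ha 1
  have hx1 : W.valuation L (a - (x : L)) < 1 := lt_of_le_of_lt hx uha_exp
  have h2 : W.valuation L (σ (a - (x : L))) < 1 := by rwa [uha_val W σ hσ]
  have h3 : W.valuation L (σ (x : L) - (x : L)) < 1 := by
    have e : σ (x : L) - (x : L) = algebraMap (𝓞 L) L (σ • x - x) := by
      rw [map_sub]
      rfl
    rw [e, HeightOneSpectrum.valuation_of_algebraMap]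
    exact (HeightOneSpectrum.intValuation_lt_one_iff_mem _ _).2 (hσ x)
  have e : σ a - a = σ (a - (x : L)) + (σ (x : L) - (x : L)) - (a - (x : L)) := by
    rw [map_sub]
    ring
  rw [e]
  exact Valuation.map_sub_lt _ (Valuation.map_add_lt _ h2 h3) hx1

variable [Algebra K k] [Algebra K L] [IsScalarTower K k L] [DecidableEq L]

/-- an inertia automorphism acts trivially on the reduction of the points -/
private theorem uha_ker (W : HeightOneSpectrum (𝓞 L)) (h3 : W.valuation L (3 : L) = 1)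
    (σ : Gal(L/k)) (hσ : ∀ x : 𝓞 L, σ • x - x ∈ W.asIdeal) (T : Pt L) :
    Ker (W.valuation L) (ga σ T - T) := by
  by_cases hT : Ker (W.valuation L) T
  · have h1 : Ker (W.valuation L) (ga σ T) := by
      rcases hT with rfl | h
      · rw [map_zero]
        exact Or.inl rfl
      · right
        rwa [xc_ga, uha_val W σ hσ]
    exact ker_sub _ h1 hT
  · obtain ⟨hT0, hx, hy⟩ := not_ker _ hT
    have h1 : ¬ Ker (W.valuation L) (ga σ T) := by
      rintro (h | h)
      · exact hT0 (pm_inj _ (h.trans (map_zero _).symm))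
      · rw [xc_ga, uha_val W σ hσ] at h
        exact absurd h (not_lt.2 hx)
    refine red_inj _ h3 h1 hT ?_ ?_
    · rw [xc_ga]
      exact uha_cong W σ hσ hx
    · rw [yc_ga]
      exact uha_cong W σ hσ hy

/-- a point of the kernel killed by a prime element which is a unit at the place is zero -/
private theorem uha_zero (W : HeightOneSpectrum (𝓞 L)) {β : 𝓞 K} (hβ : Prime β)
    (hβ1 : (3 : 𝓞 K) ∣ β - 1) (hW : W.valuation L (algebraMap K L (β : K)) = 1) {S : Pt L}
    (hS : Ker (W.valuation L) S) (h0 : sm L β S = 0) : S = 0 := by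
  by_contra hne
  exact not_ker_of_val (W.valuation L) hβ hβ1 (ord_of_prime hβ h0 hne) hW hS

/-- the value of a locally trivial cocycle at an inertia automorphism is in the kernel -/
private theorem uha_loc (W : HeightOneSpectrum (𝓞 L)) (h3 : W.valuation L (3 : L) = 1)
    (κ : Gal(L/k) → Pt L) (hloc : LocSol κ W) (σ : Gal(L/k))
    (hσ : ∀ x : 𝓞 L, σ • x - x ∈ W.asIdeal) : Ker (W.valuation L) (κ σ) := by
  obtain ⟨M, iM1, iM2, iM3, iM4, iM5, v, P, hv, hd, hg⟩ := hloc
  obtain ⟨f, hf, hfx, hfP⟩ := hg σ (uha_gpl W _ hσ)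
  have hv3 : v (3 : M) = 1 := by
    have h := hv (3 : L)
    rw [map_ofNat] at h
    rw [h, h3]
  have hc : ∀ m, v m ≤ 1 → v (f m - m) < 1 := by
    intro m hm
    obtain ⟨x, hx⟩ := hd m 1
    have hx1 : v (m - algebraMap L M x) < 1 := lt_of_le_of_lt hx uha_exp
    have hWx : W.valuation L x ≤ 1 := by
      rw [← hv]
      have e : algebraMap L M x = m - (m - algebraMap L M x) := by ring
      rw [e]
      exact Valuation.map_sub_le v hm hx1.le
    have h2 : v (f (m - algebraMap L M x)) < 1 := by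
      rw [hf]
      exact hx1
    have h4 : v (algebraMap L M (σ x - x)) < 1 := by
      rw [hv]
      exact uha_cong W _ hσ hWx
    have e : f m - m = f (m - algebraMap L M x) + algebraMap L M (σ x - x) -
        (m - algebraMap L M x) := by
      rw [map_sub, map_sub, hfx]
      ring
    rw [e]
    exact Valuation.map_sub_lt _ (Valuation.map_add_lt _ h2 h4) hx1
  have hk := red_M v hv3 f hf hc P
  rw [hfP] at hk
  rcases hk with h | h
  · left
    exact pm_inj _ (h.trans (map_zero _).symm)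
  · right
    rw [xc_pm] at h
    have h5 : v (algebraMap L M (xc (κ σ))) = W.valuation L (xc (κ σ)) := hv _
    rw [← h5]
    exact h

end

section
variable {F N N₂ L : Type u} [Field F] [NumberField F] [Algebra K F] [Field N] [NumberField N]
  [Algebra K N] [Field N₂] [NumberField N₂] [Algebra K N₂] [Field L] [NumberField L] [Algebra K L]
  [Algebra F N] [Algebra F N₂] [Algebra F L] [Algebra N L] [Algebra N₂ L]
  [IsScalarTower K F N] [IsScalarTower K F N₂] [IsScalarTower K F L] [IsScalarTower K N L]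
  [IsScalarTower K N₂ L] [IsScalarTower F N L] [IsScalarTower F N₂ L]
  [DecidableEq F] [DecidableEq N] [DecidableEq N₂] [DecidableEq L]
  [IsGalois F N] [IsGalois F N₂] [IsGalois F L]
  {ϖ : 𝓞 K} {ℓ q : ℕ} {P₀ : Pt N} {P₂ : Pt N₂} {ζ : L} {κ : Gal(L/F) → Pt L}
  (D : TC ϖ ℓ q P₀ P₂ ζ κ)
include D

theorem TC.inert (W : HeightOneSpectrum (𝓞 L)) (h3 : W.valuation L (3 : L) = 1)
    (hW : W.valuation L (algebraMap K L (cj ϖ : K)) = 1) (hloc : LocSol κ W) (σ : Gal(L/N))
    (hσ : ∀ x : 𝓞 L, σ • x - x ∈ W.asIdeal) : σ = 1 := by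
  have hp := (pd_cj D.pd).prime
  have h1 := (pd_cj D.pd).one
  have hσ' : ∀ x : 𝓞 L, toF F σ • x - x ∈ W.asIdeal := hσ
  have hR : ga (toF F σ) (up L P₂) = up L P₂ := by
    have h0 : sm L (cj ϖ) (up L P₂) = 0 := ((ord_up L).2 D.full₂.ord (cj ϖ)).2 dvd_rfl
    refine sub_eq_zero.1 (uha_zero W hp h1 hW (uha_ker W h3 (toF F σ) hσ' (up L P₂)) ?_)
    rw [map_sub, ← ga_sm, h0, map_zero, sub_zero]
  have hκ : κ (toF F σ) = 0 :=
    uha_zero W hp h1 hW (uha_loc W h3 κ hloc (toF F σ) hσ') (D.tor _)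
  have hP : ga (toF F σ) (up L P₀) = up L P₀ := by
    rw [ga_toF, ga_up_self]
  have h2 : toF F σ = 1 := D.gen _ hP hR hκ (D.chi_fix _ hP hR)
  apply AlgEquiv.ext
  intro x
  have h4 := congrArg (fun τ : Gal(L/F) => τ x) h2
  exact h4

theorem TC.unram (W : HeightOneSpectrum (𝓞 L)) (h3 : W.valuation L (3 : L) = 1)
    (hW : W.valuation L (algebraMap K L (cj ϖ : K)) = 1) (hloc : LocSol κ W) :
    W.asIdeal.ramificationIdx (𝓞 N) = 1 := by
  have iG : IsGalois N L := IsGalois.tower_top_of_isGalois F N L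
  have h1 : W.asIdeal.inertia Gal(L/N) = ⊥ := by
    rw [eq_bot_iff]
    intro σ hσ
    rw [Subgroup.mem_bot]
    exact D.inert W h3 hW hloc σ (fun x => hσ x)
  have hp0 : W.asIdeal.under (𝓞 N) ≠ ⊥ := (W.under (𝓞 N)).ne_bot
  have hfin : Finite (𝓞 N ⧸ W.asIdeal.under (𝓞 N)) :=
    Ideal.finiteQuotientOfFreeOfNeBot _ hp0
  have h2 := Ideal.card_inertia_eq_ramificationIdxIn (G := Gal(L/N)) (W.asIdeal.under (𝓞 N))
    W.asIdeal
  rw [Ideal.ramificationIdxIn_eq_ramificationIdx _ W.asIdeal Gal(L/N)] at h2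
  rw [← h2, h1]
  exact Nat.card_unique

end

end Pool.Agent.Lib.MP_1a91b9_ntT.DH
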